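import Pool.Agent.TH331.RZ.Defs

set_option autoImplicit false

open MeasureTheory Set Filter Topology
open scoped ENNReal Real FourierTransform ContDiff

namespace Pool.Agent.TH966.J251

open Pool.Agent.Helper88.SE

theorem polar (d : ℕ) (G : E d → ℝ≥0∞) (hG : Measurable G) :
    ∫⁻ v : E d, G v = ∫⁻ x : S d, (∫⁻ r in Ioi (0 : ℝ), ENNReal.ofReal (r ^ d) * G (r • (x : E d)))
      ∂((volume : Measure (E d)).toSphere) := by
  have mp := (volume : Measure (E d)).measurePreserving_homeomorphUnitSphereProd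
  have hd : Module.finrank ℝ (E d) - 1 = d := by simp
  rw [hd] at mp
  obtain ⟨Gf, hGf⟩ : ∃ Gf : S d × Ioi (0 : ℝ) → ℝ≥0∞, Gf = fun p =>
    G ((p.2 : ℝ) • (p.1 : E d)) := ⟨_, rfl⟩
  have hGm : Measurable Gf := by
    rw [hGf]
    refine hG.comp ?_
    exact (measurable_subtype_coe.comp measurable_snd).smul
      (measurable_subtype_coe.comp measurable_fst)
  have h1 : ∫⁻ v : E d, G v = ∫⁻ v : ({0}ᶜ : Set (E d)), G (v : E d)
        ∂((volume : Measure (E d)).comap (↑)) := by
    rw [lintegral_subtype_comap (measurableSet_singleton 0).compl (fun v : E d => G v),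
      restrict_compl_singleton]
  rw [h1]
  have h2 : ∀ v : ({0}ᶜ : Set (E d)), G (v : E d) = Gf (homeomorphUnitSphereProd (E d) v) := by
    intro v
    rw [hGf]
    simp only
    congr 1
    rw [homeomorphUnitSphereProd_apply_snd_coe, homeomorphUnitSphereProd_apply_fst_coe, smul_smul,
      mul_inv_cancel₀ (norm_ne_zero_iff.2 v.2), one_smul]
  rw [lintegral_congr h2, mp.lintegral_comp hGm, lintegral_prod _ hGm.aemeasurable]
  apply lintegral_congr
  intro x
  have hm : Measurable fun r : Ioi (0 : ℝ) => G ((r : ℝ) • (x : E d)) :=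
    hG.comp (measurable_subtype_coe.smul measurable_const)
  have h3 : ∫⁻ r, Gf (x, r) ∂(Measure.volumeIoiPow d) =
      ∫⁻ r : Ioi (0 : ℝ), ENNReal.ofReal ((r : ℝ) ^ d) * G ((r : ℝ) • (x : E d))
        ∂((volume : Measure ℝ).comap (↑)) := by
    unfold Measure.volumeIoiPow
    rw [hGf, lintegral_withDensity_eq_lintegral_mul _ (by fun_prop) hm]
    rfl
  rw [h3, lintegral_subtype_comap measurableSet_Ioi
    (fun r : ℝ => ENNReal.ofReal (r ^ d) * G (r • (x : E d)))]

theorem radial_shift (d : ℕ) (l l' h0 : ℝ) (h1 : 0 ≤ h0) (h2 : h0 < l) (h3 : l ≤ l')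
    (F : E d → ℝ≥0∞) (hF : Measurable F) :
    ∫⁻ t in {t : E d | |‖t‖ - l'| ≤ h0}, F (t - ((l' - l) / ‖t‖) • t) =
      ∫⁻ z in {z : E d | |‖z‖ - l| ≤ h0},
        F z * ENNReal.ofReal (((‖z‖ + (l' - l)) / ‖z‖) ^ d) := by
  have hA : MeasurableSet {t : E d | |‖t‖ - l'| ≤ h0} :=
    measurableSet_le (by fun_prop) measurable_const
  have hB : MeasurableSet {z : E d | |‖z‖ - l| ≤ h0} :=
    measurableSet_le (by fun_prop) measurable_const
  have m1 : Measurable fun t : E d => F (t - ((l' - l) / ‖t‖) • t) :=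
    hF.comp (by fun_prop)
  have m2 : Measurable fun z : E d => F z * ENNReal.ofReal (((‖z‖ + (l' - l)) / ‖z‖) ^ d) :=
    hF.mul (by fun_prop)
  rw [← lintegral_indicator hA, ← lintegral_indicator hB, polar d _ (m1.indicator hA),
    polar d _ (m2.indicator hB)]
  apply lintegral_congr
  intro x
  have hx : ‖(x : E d)‖ = 1 := by simp
  have hn : ∀ r : ℝ, 0 < r → ‖r • (x : E d)‖ = r := by
    intro r hr
    rw [norm_smul, hx, mul_one, Real.norm_of_nonneg hr.le]
  -- write both inner integrals over the line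
  obtain ⟨g, hg⟩ : ∃ g : ℝ → ℝ≥0∞, g = fun r =>
    ({r : ℝ | |r - l'| ≤ h0}.indicator
      (fun r => ENNReal.ofReal (r ^ d) * F ((r - (l' - l)) • (x : E d))) r) := ⟨_, rfl⟩
  have e1 : ∫⁻ r in Ioi (0 : ℝ), ENNReal.ofReal (r ^ d) *
      ({t : E d | |‖t‖ - l'| ≤ h0}.indicator
        (fun t => F (t - ((l' - l) / ‖t‖) • t)) (r • (x : E d))) = ∫⁻ r, g r := by
    rw [← lintegral_indicator measurableSet_Ioi]
    apply lintegral_congr
    intro r
    rw [hg]
    simp only [indicator_apply, mem_Ioi, mem_setOf_eq]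
    by_cases hr : 0 < r
    · rw [if_pos hr, hn r hr]
      by_cases h : |r - l'| ≤ h0
      · rw [if_pos h, if_pos h, smul_smul, div_mul_cancel₀ _ hr.ne', ← sub_smul]
      · rw [if_neg h, if_neg h, mul_zero]
    · rw [if_neg hr, if_neg]
      rw [abs_le]
      intro h
      linarith [h.1]
  have e2 : ∫⁻ r in Ioi (0 : ℝ), ENNReal.ofReal (r ^ d) *
      ({z : E d | |‖z‖ - l| ≤ h0}.indicator
        (fun z => F z * ENNReal.ofReal (((‖z‖ + (l' - l)) / ‖z‖) ^ d)) (r • (x : E d))) =
      ∫⁻ r, g (r + (l' - l)) := by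
    rw [← lintegral_indicator measurableSet_Ioi]
    apply lintegral_congr
    intro r
    rw [hg]
    simp only [indicator_apply, mem_Ioi, mem_setOf_eq]
    have e3 : r + (l' - l) - l' = r - l := by ring
    have e4 : r + (l' - l) - (l' - l) = r := by ring
    rw [e3, e4]
    by_cases hr : 0 < r
    · rw [if_pos hr, hn r hr]
      by_cases h : |r - l| ≤ h0
      · rw [if_pos h, if_pos h]
        have e5 : ENNReal.ofReal (r ^ d) * ENNReal.ofReal (((r + (l' - l)) / r) ^ d) =
            ENNReal.ofReal ((r + (l' - l)) ^ d) := by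
          rw [← ENNReal.ofReal_mul (by positivity), ← mul_pow, mul_div_cancel₀ _ hr.ne']
        rw [← e5]
        ring
      · rw [if_neg h, if_neg h, mul_zero]
    · rw [if_neg hr, if_neg]
      rw [abs_le]
      intro h
      linarith [h.1]
  rw [e1, e2]
  exact (lintegral_add_right_eq_self g (l' - l)).symm

end Pool.Agent.TH966.J251
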